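import Pool.Agent.Results.MP_2166fc_an.AdvectionLowersDimension
import Pool.Agent.Results.MP_32f00d_an.PlanarWithAdvection
import Pool.Agent.Results.MP_1a79d9_an.RegularInLowDimensions

/-!
# In which dimensions advection changes the regularity of extremal solutions

Q1 has a negative answer in dimension three for nonlinearities of type (S), and this is sharp:
in dimension two advection never creates a singular extremal solution, for any nonlinearity of
type (S) or (R), and in dimension three it never does so for nonlinearities of type (R).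
-/

set_option autoImplicit false

open MeasureTheory Filter Topology Set Metric Laplacian
open scoped ContDiff

namespace Pool.Agent.Results.MP_2166fc_an.SharpDimension

open Pool.Agent.Results.MP_2166fc_an.AdvectionLowersDimension

/-- The advection: a `C¹` vector field in `Ω`, bounded and with bounded derivative.  Every smooth
vector field on the closure of a bounded `Ω` is of this kind. -/
def IsAdvection {n : ℕ} (Ω : Set (EuclideanSpace ℝ (Fin n)))
    (c : EuclideanSpace ℝ (Fin n) → EuclideanSpace ℝ (Fin n)) : Prop :=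
  ContDiffOn ℝ 1 c Ω ∧ ∃ B : ℝ, ∀ x ∈ Ω, ‖c x‖ ≤ B ∧ ‖fderiv ℝ c x‖ ≤ B

/-- Nonlinearities of type (R): smooth, increasing and convex on `ℝ`, `f(0) = 1` and
`f(t)/t → +∞` as `t → ∞`. -/
structure IsTypeR (f : ℝ → ℝ) : Prop where
  smooth : ContDiff ℝ ∞ f
  increasing : StrictMono f
  convex : ConvexOn ℝ univ f
  at_zero : f 0 = 1
  superlinear : Tendsto (fun t => f t / t) atTop atTop

/-- Type (R): `u` is a classical solution of `-Δu + c·∇u = l f(u)` in `Ω`, `u = 0` on `∂Ω`, where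
`u ∈ C²(Ω) ∩ C(closure Ω)` is nonnegative. -/
structure IsSolutionR {n : ℕ} (Ω : Set (EuclideanSpace ℝ (Fin n)))
    (c : EuclideanSpace ℝ (Fin n) → EuclideanSpace ℝ (Fin n)) (f : ℝ → ℝ) (l : ℝ)
    (u : EuclideanSpace ℝ (Fin n) → ℝ) : Prop where
  contDiffOn : ContDiffOn ℝ 2 u Ω
  continuousOn : ContinuousOn u (closure Ω)
  nonneg : ∀ x ∈ Ω, 0 ≤ u x
  equation : ∀ x ∈ Ω, -(Laplacian.laplacian u x) + fderiv ℝ u x (c x) = l * f (u x)
  boundary : ∀ x ∈ frontier Ω, u x = 0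

/-- Type (R): `ls` is the critical parameter and `u l` (for `0 < l < ls`) the branch of minimal
solutions, increasing in `l`. -/
structure IsMinimalBranchR {n : ℕ} (Ω : Set (EuclideanSpace ℝ (Fin n)))
    (c : EuclideanSpace ℝ (Fin n) → EuclideanSpace ℝ (Fin n)) (f : ℝ → ℝ) (ls : ℝ)
    (u : ℝ → EuclideanSpace ℝ (Fin n) → ℝ) : Prop where
  pos : 0 < ls
  solution : ∀ l, 0 < l → l < ls → IsSolutionR Ω c f l (u l)
  minimal : ∀ l, 0 < l → l < ls → ∀ v, IsSolutionR Ω c f l v → ∀ x ∈ closure Ω, u l x ≤ v x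
  increasing : ∀ l l', 0 < l → l < l' → l' < ls → ∀ x ∈ closure Ω, u l x ≤ u l' x
  no_solution : ∀ l, ls < l → ¬ ∃ v, IsSolutionR Ω c f l v

theorem planarS {Ω : Set (EuclideanSpace ℝ (Fin 2))} (hΩ : IsSmoothBoundedDomain Ω)
    {c : EuclideanSpace ℝ (Fin 2) → EuclideanSpace ℝ (Fin 2)} (hc : IsAdvection Ω c) {f : ℝ → ℝ}
    (hf : IsTypeS f) {ls : ℝ} {u : ℝ → EuclideanSpace ℝ (Fin 2) → ℝ}
    {us : EuclideanSpace ℝ (Fin 2) → ℝ} (h : IsExtremal Ω c f ls u us) :
    IsClassical Ω us ∧ IsSolution Ω c f ls us := by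
  have key : ∀ l v, IsSolution Ω c f l v ↔
      MP_32f00d_an.PlanarWithAdvection.IsClassicalSolution Ω c f l v := fun l v =>
    ⟨fun a => ⟨a.contDiffOn, a.continuousOn, a.nonneg, a.lt_one, a.equation, a.boundary⟩,
      fun a => ⟨a.contDiffOn, a.continuousOn, a.nonneg, a.lt_one, a.equation, a.boundary⟩⟩
  obtain ⟨h1, m, hm, h2⟩ := MP_32f00d_an.PlanarWithAdvection.result Ω hΩ.isOpen hΩ.bounded c hc f
    ⟨hf.smooth, hf.increasing.monotoneOn, hf.convex, hf.at_zero, hf.blow_up⟩ ls u us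
    ⟨h.pos, fun l a b => ⟨(key _ _).1 (h.minimal l a b).1, fun v hv =>
      (h.minimal l a b).2 v ((key _ _).2 hv)⟩, h.increasing,
      fun l hl ⟨v, hv⟩ => h.no_solution l hl ⟨v, (key _ _).2 hv⟩, h.limit⟩
  exact ⟨⟨m, hm, fun x hx => h2 x (subset_closure hx)⟩, (key _ _).2 h1⟩

theorem lowR {n : ℕ} (hn : n = 2 ∨ n = 3) {Ω : Set (EuclideanSpace ℝ (Fin n))}
    (hΩ : IsSmoothBoundedDomain Ω)
    {c : EuclideanSpace ℝ (Fin n) → EuclideanSpace ℝ (Fin n)} (hc : IsAdvection Ω c) {f : ℝ → ℝ}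
    (hf : IsTypeR f) {ls : ℝ} {u : ℝ → EuclideanSpace ℝ (Fin n) → ℝ}
    (h : IsMinimalBranchR Ω c f ls u) :
    ∃ (us : EuclideanSpace ℝ (Fin n) → ℝ) (C : ℝ),
      (∀ x ∈ closure Ω, Tendsto (fun l => u l x) (𝓝[<] ls) (𝓝 (us x))) ∧
      ∀ x ∈ closure Ω, 0 ≤ us x ∧ us x ≤ C := by
  have key : ∀ l v, IsSolutionR Ω c f l v ↔
      MP_1a79d9_an.RegularInLowDimensions.IsSolution Ω c f l v := fun l v =>
    ⟨fun a => ⟨a.contDiffOn, a.continuousOn, a.nonneg, a.equation, a.boundary⟩,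
      fun a => ⟨a.contDiffOn, a.continuousOn, a.nonneg, a.equation, a.boundary⟩⟩
  obtain ⟨us, C, h1, h2, -⟩ := MP_1a79d9_an.RegularInLowDimensions.result n hn Ω
    ⟨hΩ.isOpen, hΩ.bounded, hΩ.connected, hΩ.boundary⟩ c hc f
    ⟨hf.smooth, hf.increasing, hf.convex, hf.at_zero, hf.superlinear⟩ ls u
    ⟨h.pos, fun l a b => ⟨(key _ _).1 (h.solution l a b), fun v hv =>
      h.minimal l a b v ((key _ _).2 hv)⟩, h.increasing,
      fun l hl ⟨v, hv⟩ => h.no_solution l hl ⟨v, (key _ _).2 hv⟩⟩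
  exact ⟨us, C, h1, h2⟩

/-- (1) Negative answer to Q1: for some integer `K ≥ 1` and some `B > 0` the nonlinearity
`f(t) = 1 - K log (1 - t)` is of type (S) and has a critical dimension `N_f > 3`, whereas on the
unit ball of `ℝ³` and for the field `c(x) = -B x` the extremal solution is singular.
(2) Type (S), dimension two: for every `f`, every bounded smooth domain and every advection the
extremal solution is classical (and solves the problem at the critical parameter).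
(3) Type (R), dimensions two and three: for every `f`, every bounded smooth domain and every
advection the extremal solution exists and is bounded. -/
theorem result :
    (∃ (K : ℕ) (B : ℝ), 0 < K ∧ 0 < B ∧
      IsTypeS (fun t => 1 - K * Real.log (1 - t)) ∧
      (∃ N : ℕ, IsCriticalDimension (fun t => 1 - K * Real.log (1 - t)) N ∧ 3 < N) ∧
      IsSmoothBoundedDomain (ball (0 : EuclideanSpace ℝ (Fin 3)) 1) ∧
      ∃ (ls : ℝ) (u : ℝ → EuclideanSpace ℝ (Fin 3) → ℝ) (us : EuclideanSpace ℝ (Fin 3) → ℝ),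
        IsExtremal (ball (0 : EuclideanSpace ℝ (Fin 3)) 1) (fun x => -(B • x))
          (fun t => 1 - K * Real.log (1 - t)) ls u us ∧
        ¬ IsClassical (ball (0 : EuclideanSpace ℝ (Fin 3)) 1) us) ∧
    (∀ (Ω : Set (EuclideanSpace ℝ (Fin 2))), IsSmoothBoundedDomain Ω →
      ∀ c : EuclideanSpace ℝ (Fin 2) → EuclideanSpace ℝ (Fin 2), IsAdvection Ω c →
      ∀ f : ℝ → ℝ, IsTypeS f → ∀ (ls : ℝ) (u : ℝ → EuclideanSpace ℝ (Fin 2) → ℝ)
        (us : EuclideanSpace ℝ (Fin 2) → ℝ), IsExtremal Ω c f ls u us →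
        IsClassical Ω us ∧ IsSolution Ω c f ls us) ∧
    ∀ n : ℕ, n = 2 ∨ n = 3 → ∀ (Ω : Set (EuclideanSpace ℝ (Fin n))), IsSmoothBoundedDomain Ω →
      ∀ c : EuclideanSpace ℝ (Fin n) → EuclideanSpace ℝ (Fin n), IsAdvection Ω c →
      ∀ f : ℝ → ℝ, IsTypeR f → ∀ (ls : ℝ) (u : ℝ → EuclideanSpace ℝ (Fin n) → ℝ),
        IsMinimalBranchR Ω c f ls u → ∃ (us : EuclideanSpace ℝ (Fin n) → ℝ) (C : ℝ),
          (∀ x ∈ closure Ω, Tendsto (fun l => u l x) (𝓝[<] ls) (𝓝 (us x))) ∧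
          ∀ x ∈ closure Ω, 0 ≤ us x ∧ us x ≤ C :=
  ⟨AdvectionLowersDimension.result,
    fun _ hΩ _ hc _ hf _ _ _ h => planarS hΩ hc hf h,
    fun _ hn _ hΩ _ hc _ hf _ _ h => lowR hn hΩ hc hf h⟩

end Pool.Agent.Results.MP_2166fc_an.SharpDimension
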